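import Pool.Agent.Y728.MN.Def

set_option autoImplicit false

/-!
# Elements with many common primes

`sG1 : StmtE K → StmtF K → StmtH K → StmtG1 S a`, `sG2 : StmtC K → StmtF K → StmtH K → StmtG2 S a`.
-/

namespace Pool.Agent.Y421.MN

open NumberField IsDedekindDomain Height Finset Pool.Agent.H691R3 Pool.Agent.H951R3.V
open Pool.Agent.Y728.MN
open Pool.Agent.TH876.KR (form localHeight localHeight_nonneg localHeight_pos_iff m2 Good
  good_finite m2_of_good)

/-- Pairs with large intersections. -/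
theorem overlap {α β ι : Type} [DecidableEq α] [DecidableEq β] [DecidableEq ι] (w : Finset ι → ℝ)
    (E : Finset (α × β)) (P : α → Finset ι) (Q : β → Finset ι) (A B R T : ℝ) (hR0 : 0 ≤ R)
    (hB0 : 0 ≤ B) (hA : ((E.image Prod.fst).card : ℝ) ≤ A)
    (hR : ∀ a ∈ E.image Prod.fst, (2 : ℝ) ^ (P a).card ≤ R)
    (hB : ∀ g : Finset ι, T ≤ w g → ∀ H : Finset β, H ⊆ E.image Prod.snd → (∀ b ∈ H, g ⊆ Q b) →
      (H.card : ℝ) ≤ B)
    (hT : ∀ p ∈ E, T ≤ w (P p.1 ∩ Q p.2)) : (E.card : ℝ) ≤ A * (R * B) := by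
  classical
  have h1 : E.card = ∑ a ∈ E.image Prod.fst, (E.filter (fun p => p.1 = a)).card :=
    Finset.card_eq_sum_card_image Prod.fst E
  have h2 : ∀ a ∈ E.image Prod.fst, ((E.filter (fun p => p.1 = a)).card : ℝ) ≤ R * B := by
    intro a ha
    have h3 : (E.filter (fun p => p.1 = a)).image Prod.snd ⊆
        ((P a).powerset.filter (fun g => T ≤ w g)).biUnion
          (fun g => (E.image Prod.snd).filter (fun b => g ⊆ Q b)) := by
      intro b hb
      obtain ⟨p, hp, rfl⟩ := mem_image.1 hb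
      obtain ⟨hpE, rfl⟩ := mem_filter.1 hp
      exact mem_biUnion.2 ⟨P p.1 ∩ Q p.2,
        mem_filter.2 ⟨mem_powerset.2 inter_subset_left, hT p hpE⟩,
        mem_filter.2 ⟨mem_image_of_mem _ hpE, inter_subset_right⟩⟩
    have h4 : (E.filter (fun p => p.1 = a)).card =
        ((E.filter (fun p => p.1 = a)).image Prod.snd).card := by
      rw [card_image_of_injOn]
      intro p hp r hr h
      have hp' := (mem_filter.1 (mem_coe.1 hp)).2
      have hr' := (mem_filter.1 (mem_coe.1 hr)).2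
      exact Prod.ext (hp'.trans hr'.symm) h
    calc ((E.filter (fun p => p.1 = a)).card : ℝ)
        = (((E.filter (fun p => p.1 = a)).image Prod.snd).card : ℝ) := by rw [h4]
      _ ≤ ∑ g ∈ (P a).powerset.filter (fun g => T ≤ w g),
          (((E.image Prod.snd).filter (fun b => g ⊆ Q b)).card : ℝ) := by
        exact_mod_cast (card_le_card h3).trans card_biUnion_le
      _ ≤ ∑ _g ∈ (P a).powerset.filter (fun g => T ≤ w g), B :=
        sum_le_sum fun g hg => hB g (mem_filter.1 hg).2 _ (filter_subset _ _)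
          fun b hb => (mem_filter.1 hb).2
      _ = ((P a).powerset.filter (fun g => T ≤ w g)).card * B := by rw [sum_const, nsmul_eq_mul]
      _ ≤ R * B := by
        refine mul_le_mul_of_nonneg_right ?_ hB0
        calc (((P a).powerset.filter (fun g => T ≤ w g)).card : ℝ)
            ≤ ((P a).powerset.card : ℝ) := by exact_mod_cast card_filter_le _ _
          _ = 2 ^ (P a).card := by rw [card_powerset]; push_cast; rfl
          _ ≤ R := hR a ha
  rw [h1]
  push_cast
  calc ∑ a ∈ E.image Prod.fst, ((E.filter (fun p => p.1 = a)).card : ℝ)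
      ≤ ∑ _a ∈ E.image Prod.fst, R * B := sum_le_sum h2
    _ = ((E.image Prod.fst).card : ℝ) * (R * B) := by rw [sum_const, nsmul_eq_mul]
    _ ≤ A * (R * B) := mul_le_mul_of_nonneg_right hA (mul_nonneg hR0 hB0)

variable {K : Type} [Field K] [NumberField K]

theorem wt_nonneg (F : Finset (HeightOneSpectrum (𝓞 K))) : 0 ≤ wt F :=
  sum_nonneg fun v _ => (ell_pos v).le

theorem wt_mono {F G : Finset (HeightOneSpectrum (𝓞 K))} (h : F ⊆ G) : wt F ≤ wt G :=
  sum_le_sum_of_subset_of_nonneg h fun v _ _ => (ell_pos v).le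

theorem wt_biUnion_le {J : Type} [DecidableEq (HeightOneSpectrum (𝓞 K))] (s : Finset J)
    (f : J → Finset (HeightOneSpectrum (𝓞 K))) : wt (s.biUnion f) ≤ ∑ j ∈ s, wt (f j) := by
  classical
  induction s using Finset.induction_on with
  | empty => simp [Pool.Agent.Y728.MN.wt]
  | insert j s hj ih =>
    rw [biUnion_insert, sum_insert hj]
    have h1 : wt (f j ∪ s.biUnion f) + wt (f j ∩ s.biUnion f) = wt (f j) + wt (s.biUnion f) :=
      sum_union_inter
    have h2 := wt_nonneg (f j ∩ s.biUnion f)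
    linarith

theorem ell_le_posLog (v : HeightOneSpectrum (𝓞 K)) {z : K} (h : 1 < fv v z) :
    ell v ≤ Real.posLog (fv v z) := by
  have hz : z ≠ 0 := by
    rintro rfl
    rw [map_zero] at h
    linarith
  obtain ⟨n, hn⟩ := log_fv v hz
  have hpos : 0 < Real.log (fv v z) := Real.log_pos h
  have hN : 0 < ell v := ell_pos v
  have hn' : Real.log (fv v z) = n * ell v := hn
  have h1 : (0 : ℝ) < n := by
    by_contra hcon
    push Not at hcon
    rw [hn'] at hpos
    nlinarith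
  have h2 : (1 : ℤ) ≤ n := by
    have : (0 : ℤ) < n := by exact_mod_cast h1
    omega
  have h3 : (1 : ℝ) ≤ n := by exact_mod_cast h2
  have h4 : Real.log (fv v z) ≤ Real.posLog (fv v z) := le_max_right _ _
  rw [hn'] at h4
  nlinarith

theorem wt_le_height {u : K} (F : Finset (HeightOneSpectrum (𝓞 K)))
    (h : ∀ v ∈ F, 1 < fv v u) : wt F ≤ logHeight₁ u := by
  by_cases hu : u = 0
  · have : F = ∅ := by
      rw [eq_empty_iff_forall_notMem]
      intro v hv
      have h1 := h v hv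
      rw [hu, map_zero] at h1
      linarith
    rw [this]
    simp only [Pool.Agent.Y728.MN.wt, sum_empty]
    exact zero_le_logHeight₁ u
  · exact (sum_le_sum fun v hv => ell_le_posLog v (h v hv)).trans (sum_posLog_le hu F)

/-- The primes at which `x` is near `a`. -/
theorem near_bound (a : Fin 2 → K) : ∃ c : ℝ, 0 ≤ c ∧ ∀ x : K, form a ![x, 1] ≠ 0 →
    ∀ F : Finset (HeightOneSpectrum (𝓞 K)), (∀ v ∈ F, 0 < localHeight v a ![x, 1]) →
      wt F ≤ c + logHeight₁ x := by
  classical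
  have hsplit : ∀ F : Finset (HeightOneSpectrum (𝓞 K)), wt F ≤
      wt (good_finite a).toFinset + wt (F.filter fun v => Good v a) := by
    intro F
    have h1 : wt F = wt (F.filter fun v => Good v a) + wt (F.filter fun v => ¬ Good v a) :=
      (sum_filter_add_sum_filter_not F _ _).symm
    have h2 : wt (F.filter fun v => ¬ Good v a) ≤ wt (good_finite a).toFinset := by
      refine wt_mono fun v hv => ?_
      rw [Set.Finite.mem_toFinset]
      exact (mem_filter.1 hv).2
    linarith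
  have hw0 := wt_nonneg (good_finite a).toFinset
  by_cases h1 : a 1 = 0
  · refine ⟨wt (good_finite a).toFinset, hw0, fun x hx F hF => (hsplit F).trans ?_⟩
    refine add_le_add le_rfl (wt_le_height _ fun v hv => ?_)
    obtain ⟨hvF, hg⟩ := mem_filter.1 hv
    have hform : form a ![x, 1] = a 0 := by
      simp [form, h1]
    have ha0 : a 0 ≠ 0 := by rw [← hform]; exact hx
    have ha : a ≠ 0 := fun h => ha0 (by rw [h]; rfl)
    have h2 := (localHeight_pos_iff v hx).1 (hF v hvF)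
    rw [hform, hg 0 ha0, m2_of_good ha hg, one_mul] at h2
    unfold m2 at h2
    simp only [Matrix.cons_val_zero, Matrix.cons_val_one, map_one] at h2
    rcases lt_max_iff.1 h2 with h3 | h3
    · exact h3
    · exact absurd h3 (lt_irrefl _)
  · refine ⟨wt (good_finite a).toFinset + (totalWeight K * Real.log 2 + logHeight₁ (a 0 / a 1)), ?_,
      fun x hx F hF => (hsplit F).trans ?_⟩
    · have : 0 ≤ totalWeight K * Real.log 2 :=
        mul_nonneg (Nat.cast_nonneg _) (Real.log_nonneg (by norm_num))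
      have := zero_le_logHeight₁ (a 0 / a 1)
      positivity
    · have h2 : wt (F.filter fun v => Good v a) ≤ logHeight₁ (x - a 0 / a 1)⁻¹ := by
        refine wt_le_height _ fun v hv => ?_
        obtain ⟨hvF, hg⟩ := mem_filter.1 hv
        have ha : a ≠ 0 := fun h => h1 (by rw [h]; rfl)
        have h2 := (localHeight_pos_iff v hx).1 (hF v hvF)
        rw [m2_of_good ha hg, one_mul] at h2
        unfold m2 at h2
        simp only [Matrix.cons_val_zero, Matrix.cons_val_one, map_one] at h2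
        have hform : form a ![x, 1] = a 0 - a 1 * x := by
          simp [form]
        have ha0 : fv v (a 0) ≤ 1 := by
          by_cases h0 : a 0 = 0
          · rw [h0, map_zero]; exact zero_le_one
          · exact (hg 0 h0).le
        have hx1 : fv v x ≤ max 1 (fv v (form a ![x, 1])) := by
          have e : a 1 * x = a 0 + -form a ![x, 1] := by rw [hform]; ring
          have e1 : fv v x = fv v (a 1 * x) := by rw [map_mul, hg 1 h1, one_mul]
          rw [e1, e]
          refine (fv_na v _ _).trans (max_le_max ha0 ?_)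
          rw [(fv v).map_neg]
        have hlt : fv v (form a ![x, 1]) < 1 := by
          by_contra hcon
          push Not at hcon
          rw [max_eq_right hcon] at hx1
          have := max_le hx1 hcon
          linarith
        have e2 : fv v (x - a 0 / a 1) = fv v (form a ![x, 1]) := by
          have e3 : form a ![x, 1] = -(a 1 * (x - a 0 / a 1)) := by
            rw [hform]; field_simp; ring
          rw [e3, (fv v).map_neg, map_mul, hg 1 h1, one_mul]
        rw [map_inv₀, e2]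
        exact (one_lt_inv₀ ((fv v).pos hx)).2 hlt
      have h3 := logHeight₁_sub_le x (a 0 / a 1)
      rw [logHeight₁_inv'] at h2
      linarith

open Classical in
theorem mem_vs {q : ℕ} (S : Set (HeightOneSpectrum (𝓞 K))) (a : Fin q → Fin 2 → K) {x : K}
    (hx : ∀ j, form (a j) ![x, 1] ≠ 0) (v : HeightOneSpectrum (𝓞 K)) :
    v ∈ vs S a x ↔ v ∉ S ∧ ∃ j, 0 < localHeight v (a j) ![x, 1] := by
  have hfin : {v : HeightOneSpectrum (𝓞 K) | v ∉ S ∧ ∃ j, 0 < localHeight v (a j) ![x, 1]}.Finite := by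
    refine (Pool.Agent.Y730.QP.supp_finite (a := a) (x := ![x, 1]) (fun j h0 => hx j ?_) ?_
      hx).subset ?_
    · rw [h0]; simp [form]
    · intro h
      have := congrFun h 1
      simp at this
    · rintro v ⟨-, j, hj⟩
      exact ⟨j, hj.ne'⟩
  unfold vs
  rw [dif_pos hfin, Set.Finite.mem_toFinset]
  rfl

open Classical in
theorem vs_bound {q : ℕ} (S : Set (HeightOneSpectrum (𝓞 K))) (a : Fin q → Fin 2 → K) :
    ∃ c : ℝ, 0 < c ∧ ∀ (x : K) (Y : ℝ), (∀ j, form (a j) ![x, 1] ≠ 0) → logHeight₁ x ≤ Y →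
      0 ≤ Y → wt (vs S a x) ≤ c * (1 + Y) := by
  choose c hc0 hc using fun j => near_bound (a j)
  refine ⟨∑ j, c j + q + 1, by
    have : 0 ≤ ∑ j, c j := sum_nonneg fun j _ => hc0 j
    positivity, fun x Y hx hY hY0 => ?_⟩
  have h1 : vs S a x ⊆ univ.biUnion fun j =>
      (vs S a x).filter fun v => 0 < localHeight v (a j) ![x, 1] := by
    intro v hv
    obtain ⟨j, hj⟩ := ((mem_vs S a hx v).1 hv).2
    exact mem_biUnion.2 ⟨j, mem_univ j, mem_filter.2 ⟨hv, hj⟩⟩
  have h2 : wt (vs S a x) ≤ ∑ j, wt ((vs S a x).filter fun v => 0 < localHeight v (a j) ![x, 1]) := by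
    exact (wt_mono h1).trans (wt_biUnion_le _ _)
  have h3 : ∀ j, wt ((vs S a x).filter fun v => 0 < localHeight v (a j) ![x, 1]) ≤ c j + Y :=
    fun j => (hc j x (hx j) _ fun v hv => (mem_filter.1 hv).2).trans (add_le_add le_rfl hY)
  have h4 : ∑ j, (c j + Y) = ∑ j, c j + q * Y := by
    rw [sum_add_distrib, sum_const, card_univ, Fintype.card_fin, nsmul_eq_mul]
  have h5 : 0 ≤ ∑ j, c j := sum_nonneg fun j _ => hc0 j
  have h6 := sum_le_sum fun j (_ : j ∈ (univ : Finset (Fin q))) => h3 j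
  have h7 : (0 : ℝ) ≤ q := Nat.cast_nonneg q
  nlinarith

open Classical in
/-- the primes of `vs S a x` at which `x` is near `a j` -/
noncomputable def nq {q : ℕ} (S : Set (HeightOneSpectrum (𝓞 K))) (a : Fin q → Fin 2 → K) (j : Fin q)
    (x : K) : Finset (HeightOneSpectrum (𝓞 K)) :=
  (vs S a x).filter fun v => 0 < localHeight v (a j) ![x, 1]

open Classical in
/-- elements which have many primes in common with those of another family -/
theorem gen {β : Type} {q : ℕ} (S : Set (HeightOneSpectrum (𝓞 K))) (a : Fin q → Fin 2 → K)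
    (hF : StmtF K) (hH : StmtH K) (Q : β → Finset (HeightOneSpectrum (𝓞 K))) (be : ℝ)
    (ok : ℝ → β → Prop)
    (hQ : ∀ δ : ℝ, 0 < δ → ∃ C : ℝ, 0 < C ∧ ∀ Y : ℝ, 0 ≤ Y →
      ∀ (g : Finset (HeightOneSpectrum (𝓞 K))) (H : Finset β), (∀ b ∈ H, ok Y b ∧ g ⊆ Q b) →
        (H.card : ℝ) ≤ C * Real.exp ((be + δ) * Y - wt g))
    (δ : ℝ) (hδ : 0 < δ) :
    ∃ C : ℝ, 0 < C ∧ ∀ Y : ℝ, 0 ≤ Y → ∀ E : Finset (K × β),
      (∀ p ∈ E, (∀ j, form (a j) ![p.1, 1] ≠ 0) ∧ logHeight₁ p.1 ≤ Y ∧ ok Y p.2 ∧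
        δ * Y ≤ wt (vs S a p.1 ∩ Q p.2)) →
      (E.card : ℝ) ≤ C * Real.exp ((2 + be - δ / 2) * Y) := by
  obtain ⟨c, hc0, hc⟩ := vs_bound S a
  obtain ⟨C1, hC1, h1⟩ := hH (δ / 8) (by positivity)
  obtain ⟨C2, hC2, h2⟩ := hQ (δ / 8) (by positivity)
  obtain ⟨C3, hC3, h3⟩ := hF (δ / (4 * c)) (by positivity)
  refine ⟨C1 * (C3 * Real.exp (δ / 4) * C2), by positivity, fun Y hY E hE => ?_⟩
  have hmain := overlap wt E (vs S a) Q (C1 * Real.exp ((2 + δ / 8) * Y))
    (C2 * Real.exp ((be + δ / 8) * Y - δ * Y)) (C3 * Real.exp (δ / 4 * (1 + Y))) (δ * Y)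
    (by positivity) (by positivity)
    (h1 Y hY _ fun x hx => by
      obtain ⟨p, hp, rfl⟩ := mem_image.1 hx
      exact (hE p hp).2.1)
    (fun x hx => by
      obtain ⟨p, hp, rfl⟩ := mem_image.1 hx
      refine (h3 _).trans (mul_le_mul_of_nonneg_left (Real.exp_le_exp.2 ?_) hC3.le)
      have h4 := hc p.1 Y (hE p hp).1 (hE p hp).2.1 hY
      calc δ / (4 * c) * wt (vs S a p.1) ≤ δ / (4 * c) * (c * (1 + Y)) :=
            mul_le_mul_of_nonneg_left h4 (by positivity)
        _ = δ / 4 * (1 + Y) := by field_simp)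
    (fun g hg H hH1 hH2 => by
      refine (h2 Y hY g H fun b hb => ⟨?_, hH2 b hb⟩).trans
        (mul_le_mul_of_nonneg_left (Real.exp_le_exp.2 (by linarith)) hC2.le)
      obtain ⟨p, hp, rfl⟩ := mem_image.1 (hH1 hb)
      exact (hE p hp).2.2.1)
    (fun p hp => (hE p hp).2.2.2)
  refine hmain.trans ?_
  have e : C1 * Real.exp ((2 + δ / 8) * Y) * (C3 * Real.exp (δ / 4 * (1 + Y)) *
      (C2 * Real.exp ((be + δ / 8) * Y - δ * Y))) =
      C1 * (C3 * Real.exp (δ / 4) * C2) * Real.exp ((2 + be - δ / 2) * Y) := by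
    have e1 : Real.exp ((2 + δ / 8) * Y) * (Real.exp (δ / 4 * (1 + Y)) *
        Real.exp ((be + δ / 8) * Y - δ * Y)) = Real.exp (δ / 4) *
        Real.exp ((2 + be - δ / 2) * Y) := by
      rw [← Real.exp_add, ← Real.exp_add, ← Real.exp_add]
      congr 1
      ring
    linear_combination (C1 * C2 * C3) * e1
  rw [e]

open Classical in
/-- MG2 -/
theorem sG2 {q : ℕ} (S : Set (HeightOneSpectrum (𝓞 K))) (a : Fin q → Fin 2 → K) :
    StmtC K → StmtF K → StmtH K → StmtG2 S a := by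
  intro hC hF hH δ hδ
  obtain ⟨C, hC0, h⟩ := gen S a hF hH (fun b : K × K => zr (b.1 / b.2 - 1)) 4
    (fun Y b => b.1 ≠ 0 ∧ b.2 ≠ 0 ∧ b.1 ≠ b.2 ∧ logHeight₁ b.1 ≤ Y ∧ logHeight₁ b.2 ≤ Y)
    (fun δ' hδ' => by
      obtain ⟨C, hC0, h⟩ := hC δ' hδ'
      refine ⟨C, hC0, fun Y hY g H hH' => h Y hY g H fun p hp => ?_⟩
      obtain ⟨⟨k1, k2, k3, k4, k5⟩, k6⟩ := hH' p hp
      exact ⟨k1, k2, k3, k4, k5, k6⟩) δ hδ
  refine ⟨δ / 2, C, by positivity, hC0, fun Y hY E hE => ?_⟩
  have h1 := h Y hY E fun p hp => by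
    obtain ⟨k1, k2, k3, k4, k5, k6, k7, k8⟩ := hE p hp
    exact ⟨k1, k5, ⟨k2, k3, k4, k6, k7⟩, k8⟩
  convert h1 using 3
  ring

open Classical in
/-- MG1 -/
theorem sG1 {q : ℕ} (S : Set (HeightOneSpectrum (𝓞 K))) (a : Fin q → Fin 2 → K) :
    StmtE K → StmtF K → StmtH K → StmtG1 S a := by
  intro hEE hF hH δ hδ
  rcases Nat.eq_zero_or_pos q with hq | hq
  · -- no points
    obtain ⟨C, hC0, h⟩ := hH 1 one_pos
    refine ⟨1, C * C, one_pos, by positivity, fun Y hY E hE => ?_⟩
    by_cases hem : E = ∅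
    · rw [hem, card_empty, Nat.cast_zero]; positivity
    obtain ⟨p0, hp0⟩ := Finset.nonempty_iff_ne_empty.2 hem
    have hvs : vs S a p0.1 = ∅ := by
      rw [eq_empty_iff_forall_notMem]
      intro v hv
      obtain ⟨-, j, -⟩ := (mem_vs S a (hE p0 hp0).1 v).1 hv
      exact absurd j.2 (by omega)
    have h0 := (hE p0 hp0).2.2.2.2
    rw [hvs, empty_inter] at h0
    have h00 : wt (∅ : Finset (HeightOneSpectrum (𝓞 K))) = 0 := sum_empty
    rw [h00] at h0
    have hY0 : Y = 0 := by nlinarith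
    have hsub : E ⊆ (E.image Prod.fst) ×ˢ (E.image Prod.snd) := fun p hp =>
      mem_product.2 ⟨mem_image_of_mem _ hp, mem_image_of_mem _ hp⟩
    have c1 := h Y hY (E.image Prod.fst) fun x hx => by
      obtain ⟨p, hp, rfl⟩ := mem_image.1 hx
      exact (hE p hp).2.2.1
    have c2 := h Y hY (E.image Prod.snd) fun x hx => by
      obtain ⟨p, hp, rfl⟩ := mem_image.1 hx
      exact (hE p hp).2.2.2.1
    rw [hY0, mul_zero, Real.exp_zero, mul_one] at c1 c2
    rw [hY0, mul_zero, Real.exp_zero, mul_one]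
    have c3 : (E.card : ℝ) ≤ ((E.image Prod.fst).card : ℝ) * ((E.image Prod.snd).card : ℝ) := by
      have := card_le_card hsub
      rw [card_product] at this
      exact_mod_cast this
    exact c3.trans (mul_le_mul c1 c2 (Nat.cast_nonneg _) hC0.le)
  · have hq0 : (0 : ℝ) < q := by exact_mod_cast hq
    have hex : ∀ j : Fin q, ∃ C : ℝ, 0 < C ∧ ∀ Y : ℝ, 0 ≤ Y → ∀ E : Finset (K × K),
        (∀ p ∈ E, (∀ j, form (a j) ![p.1, 1] ≠ 0) ∧ logHeight₁ p.1 ≤ Y ∧
          ((∀ j, form (a j) ![p.2, 1] ≠ 0) ∧ logHeight₁ p.2 ≤ Y) ∧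
          δ / q * Y ≤ wt (vs S a p.1 ∩ nq S a j p.2)) →
        (E.card : ℝ) ≤ C * Real.exp ((2 + 2 - δ / q / 2) * Y) := fun j =>
      gen S a hF hH (nq S a j) 2
        (fun Y b => (∀ j, form (a j) ![b, 1] ≠ 0) ∧ logHeight₁ b ≤ Y)
        (fun δ' hδ' => by
          obtain ⟨C, hC0, h⟩ := hEE (a j) δ' hδ'
          refine ⟨C, hC0, fun Y hY g H hH' => h Y hY g H fun b hb => ?_⟩
          obtain ⟨⟨k1, k2⟩, k3⟩ := hH' b hb
          exact ⟨k1 j, k2, fun v hv => (mem_filter.1 (k3 hv)).2⟩) (δ / q) (by positivity)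
    choose C hC0 h using hex
    refine ⟨δ / q / 2, ∑ j, C j, by positivity, ?_, fun Y hY E hE => ?_⟩
    · exact sum_pos (fun j _ => hC0 j) ⟨⟨0, hq⟩, mem_univ _⟩
    have hcov : E ⊆ univ.biUnion fun j : Fin q =>
        E.filter fun p => δ / q * Y ≤ wt (vs S a p.1 ∩ nq S a j p.2) := by
      intro p hp
      by_contra hcon
      have h1 : ∀ j : Fin q, wt (vs S a p.1 ∩ nq S a j p.2) < δ / q * Y := by
        intro j
        by_contra h2
        push Not at h2
        exact hcon (mem_biUnion.2 ⟨j, mem_univ j, mem_filter.2 ⟨hp, h2⟩⟩)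
      obtain ⟨k1, k2, k3, k4, k5⟩ := hE p hp
      have h2 : vs S a p.1 ∩ vs S a p.2 ⊆ univ.biUnion fun j => vs S a p.1 ∩ nq S a j p.2 := by
        intro v hv
        obtain ⟨hv1, hv2⟩ := mem_inter.1 hv
        obtain ⟨-, j, hj⟩ := (mem_vs S a k2 v).1 hv2
        exact mem_biUnion.2 ⟨j, mem_univ j, mem_inter.2 ⟨hv1, mem_filter.2 ⟨hv2, hj⟩⟩⟩
      have h3 := (wt_mono h2).trans (wt_biUnion_le _ _)
      have h4 : ∑ j : Fin q, wt (vs S a p.1 ∩ nq S a j p.2) < ∑ _j : Fin q, δ / q * Y :=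
        sum_lt_sum_of_nonempty ⟨⟨0, hq⟩, mem_univ _⟩ fun j _ => h1 j
      have h5 : ∑ _j : Fin q, δ / q * Y = δ * Y := by
        rw [sum_const, card_univ, Fintype.card_fin, nsmul_eq_mul]
        field_simp
      linarith
    have hcard : (E.card : ℝ) ≤ ∑ j : Fin q,
        ((E.filter fun p => δ / q * Y ≤ wt (vs S a p.1 ∩ nq S a j p.2)).card : ℝ) := by
      exact_mod_cast (card_le_card hcov).trans card_biUnion_le
    refine hcard.trans ?_
    rw [sum_mul]
    refine sum_le_sum fun j _ => ?_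
    have h1 := h j Y hY (E.filter fun p => δ / q * Y ≤ wt (vs S a p.1 ∩ nq S a j p.2)) fun p hp => by
      obtain ⟨hpE, hp2⟩ := mem_filter.1 hp
      obtain ⟨k1, k2, k3, k4, -⟩ := hE p hpE
      exact ⟨k1, k3, ⟨k2, k4⟩, hp2⟩
    have e : (2 + 2 - δ / q / 2) * Y = (4 - δ / q / 2) * Y := by ring
    rw [e] at h1
    exact h1

end Pool.Agent.Y421.MN
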